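import Pool.Agent.Helper26.TOR.Arr

/-!
Arrangements of symplectic surfaces of arbitrary square: the comparison of the Chern numbers of the covers,
and the inequality in which only the points of multiplicity at least five count.
-/

set_option autoImplicit false

open Finset

namespace Pool.Agent.Helper94.BQ

open Pool.Agent.Helper26.TOR

variable {k m : ℕ} {V : Type} [AddCommGroup V] [Module ℝ V]

/-- `V = H_2(X; ℝ)`, `B` is the intersection form, `K` the canonical class. The `t i` are the classes of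
surfaces of genus `g i`, for which adjunction holds, and which meet pairwise positively and
transversally, with the incidences `S`; `sq` as in `IsArr` is not required. -/
structure Arr (B : V →ₗ[ℝ] V →ₗ[ℝ] ℝ) (K : V) (S : Fin m → Finset (Fin k)) (g : Fin k → ℕ)
    (t : Fin k → V) : Prop where
  adj : ∀ i, B K (t i) + B (t i) (t i) = 2 * g i - 2
  inter : ∀ i j, i ≠ j → B (t i) (t j) = num S i j

variable {K : V} {g : Fin k → ℕ}

private lemma num_eq (S : Fin m → Finset (Fin k)) (i j : Fin k) :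
    (num S i j : ℝ) = ∑ p, if i ∈ S p ∧ j ∈ S p then (1 : ℝ) else 0 := by
  unfold num
  rw [Finset.sum_boole]

private lemma deg_eq (S : Fin m → Finset (Fin k)) (i : Fin k) :
    (deg S i : ℝ) = ∑ p, if i ∈ S p then (1 : ℝ) else 0 := by
  unfold deg
  rw [Finset.sum_boole]

/-- the off diagonal part of the square -/
private lemma cross (s : Finset (Fin k)) (y : Fin k → ℝ) :
    ∑ i, ∑ j, (if i = j then 0 else if i ∈ s ∧ j ∈ s then y i * y j else 0) =
      (∑ i ∈ s, y i) ^ 2 - ∑ i ∈ s, y i ^ 2 := by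
  have h1 : ∀ i j : Fin k, (if i = j then (0 : ℝ) else if i ∈ s ∧ j ∈ s then y i * y j else 0) =
      (if i ∈ s then y i else 0) * (if j ∈ s then y j else 0) -
        if i = j then (if i ∈ s then y i ^ 2 else 0) else 0 := by
    intro i j
    by_cases hij : i = j
    · subst hij
      by_cases hi : i ∈ s
      · simp [hi, sq]
      · simp [hi]
    · by_cases hi : i ∈ s <;> by_cases hj : j ∈ s <;> simp [hij, hi, hj]
  simp only [h1, Finset.sum_sub_distrib]
  have h2 : ∑ i, ∑ j, (if i ∈ s then y i else 0) * (if j ∈ s then y j else 0) = (∑ i ∈ s, y i) ^ 2 := by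
    rw [sq, ← Finset.sum_mul_sum]
    simp
  have h3 : ∑ i : Fin k, ∑ j : Fin k, (if i = j then (if i ∈ s then y i ^ 2 else 0) else 0) =
      ∑ i ∈ s, y i ^ 2 := by
    simp
  rw [h2, h3]

/-- the weighted Gram matrix without its diagonal -/
private noncomputable def hh (B : V →ₗ[ℝ] V →ₗ[ℝ] ℝ) (t : Fin k → V) (w : Fin k → ℝ) (i j : Fin k) : ℝ :=
  if i = j then 0 else w i * w j * B (t i) (t j)

private lemma hh_eq {B : V →ₗ[ℝ] V →ₗ[ℝ] ℝ} {S : Fin m → Finset (Fin k)} {t : Fin k → V} (h : Arr B K S g t)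
    (w : Fin k → ℝ) (i j : Fin k) :
    hh B t w i j = ∑ p, (if i = j then 0 else if i ∈ S p ∧ j ∈ S p then w i * w j else 0) := by
  unfold hh
  by_cases hij : i = j
  · subst hij
    simp
  · rw [if_neg hij, h.inter i j hij, num_eq, Finset.mul_sum]
    refine Finset.sum_congr rfl fun p _ => ?_
    simp [hij]

private lemma sum_hh {B : V →ₗ[ℝ] V →ₗ[ℝ] ℝ} {S : Fin m → Finset (Fin k)} {t : Fin k → V} (h : Arr B K S g t)
    (w : Fin k → ℝ) :
    ∑ i, ∑ j, hh B t w i j = ∑ p, ((∑ i ∈ S p, w i) ^ 2 - ∑ i ∈ S p, w i ^ 2) := by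
  simp only [hh_eq h]
  rw [Finset.sum_congr rfl fun i _ => Finset.sum_comm, Finset.sum_comm]
  exact Finset.sum_congr rfl fun p _ => cross (S p) w

private lemma sq_hh (B : V →ₗ[ℝ] V →ₗ[ℝ] ℝ) (t : Fin k → V) (w : Fin k → ℝ) :
    B (∑ i, w i • t i) (∑ i, w i • t i) =
      ∑ i, ∑ j, hh B t w i j + ∑ i, w i ^ 2 * B (t i) (t i) := by
  have e1 : B (∑ i, w i • t i) (∑ i, w i • t i) = ∑ i, ∑ j, w i * w j * B (t i) (t j) := by
    simp only [map_sum, map_smul, LinearMap.sum_apply, LinearMap.smul_apply, smul_eq_mul]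
    rw [Finset.sum_comm]
    refine Finset.sum_congr rfl fun i _ => ?_
    rw [Finset.mul_sum]
    refine Finset.sum_congr rfl fun j _ => ?_
    ring
  rw [e1, ← Finset.sum_add_distrib]
  refine Finset.sum_congr rfl fun i _ => ?_
  have e2 : ∀ j, w i * w j * B (t i) (t j) =
      hh B t w i j + if i = j then w i ^ 2 * B (t i) (t i) else 0 := by
    intro j
    unfold hh
    by_cases hij : i = j
    · subst hij
      simp [sq]
    · simp [hij]
  simp only [e2]
  rw [Finset.sum_add_distrib]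
  simp

/-- the square of `K + ∑ w_i C_i` -/
private lemma sq_K {B : V →ₗ[ℝ] V →ₗ[ℝ] ℝ} (hB : ∀ x y, B x y = B y x) {S : Fin m → Finset (Fin k)} {t : Fin k → V}
    (h : Arr B K S g t) (w : Fin k → ℝ) :
    B (K + ∑ i, w i • t i) (K + ∑ i, w i • t i) =
      B K K + 2 * ∑ i, (2 * (g i : ℝ) - 2 - B (t i) (t i)) * w i + ∑ i, w i ^ 2 * B (t i) (t i) +
      ∑ p, ((∑ i ∈ S p, w i) ^ 2 - ∑ i ∈ S p, w i ^ 2) := by
  have e0 : ∀ i, B K (t i) = 2 * (g i : ℝ) - 2 - B (t i) (t i) := fun i => by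
    have := h.adj i
    linarith
  have e1 : B K (∑ i, w i • t i) = ∑ i, (2 * (g i : ℝ) - 2 - B (t i) (t i)) * w i := by
    simp only [map_sum, map_smul, smul_eq_mul, e0]
    exact Finset.sum_congr rfl fun i _ => mul_comm _ _
  have e2 : B (∑ i, w i • t i) K = ∑ i, (2 * (g i : ℝ) - 2 - B (t i) (t i)) * w i := by
    rw [hB, e1]
  rw [map_add B, LinearMap.add_apply, map_add, map_add, e1, e2, sq_hh, sum_hh h]
  ring

/-- the comparison of the Chern numbers, without the index -/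
theorem gap {B : V →ₗ[ℝ] V →ₗ[ℝ] ℝ} (hB : ∀ x y, B x y = B y x)
    {S : Fin m → Finset (Fin k)} {t : Fin k → V} (h : Arr B K S g t) (e : ℝ) (Bl : Finset (Fin m))
    (hBl : ∀ p ∉ Bl, (S p).card = 2) (w : Fin k → ℝ) (z : Fin m → ℝ) :
    cOneSq S (B (K + ∑ i, w i • t i) (K + ∑ i, w i • t i)) Bl w z + (3 * e - B K K) +
      curv B g t w + rest S Bl w z +
      (3 * mass S Bl w - ∑ p, ((∑ i ∈ S p, w i) ^ 2 - ∑ i ∈ S p, w i ^ 2)) / 4 =
        3 * cTwo S e g Bl w z := by
  have hdeg : ∑ i, (2 - 2 * (g i : ℝ) - deg S i) * (1 - w i) =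
      ∑ i, (2 * (g i : ℝ) - 2) * w i - ∑ i, (2 * (g i : ℝ) - 2) +
        ∑ p, (∑ i ∈ S p, w i - (S p).card) := by
    have e1 : ∀ i, (2 - 2 * (g i : ℝ) - deg S i) * (1 - w i) =
        ((2 * (g i : ℝ) - 2) * w i - (2 * (g i : ℝ) - 2)) + ∑ p, if i ∈ S p then (w i - 1) else 0 := by
      intro i
      have e0 : (deg S i : ℝ) * (1 - w i) = -∑ p, if i ∈ S p then (w i - 1) else 0 := by
        rw [deg_eq, Finset.sum_mul, ← Finset.sum_neg_distrib]
        refine Finset.sum_congr rfl fun p _ => ?_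
        split_ifs <;> ring
      linear_combination -e0
    simp only [e1]
    rw [Finset.sum_add_distrib, Finset.sum_sub_distrib, Finset.sum_comm]
    congr 1
    refine Finset.sum_congr rfl fun p _ => ?_
    simp [Finset.sum_ite_mem, Finset.sum_sub_distrib]
  have hcurv : curv B g t w = ∑ i, (2 * (g i : ℝ) - 2) * w i + 2 * ∑ i, w i * B (t i) (t i) -
      ∑ i, w i ^ 2 * B (t i) (t i) := by
    unfold curv
    rw [Finset.mul_sum, ← Finset.sum_add_distrib, ← Finset.sum_sub_distrib]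
    exact Finset.sum_congr rfl fun i _ => by ring
  have hadj : ∑ i, (2 * (g i : ℝ) - 2 - B (t i) (t i)) * w i =
      ∑ i, (2 * (g i : ℝ) - 2) * w i - ∑ i, w i * B (t i) (t i) := by
    rw [← Finset.sum_sub_distrib]
    exact Finset.sum_congr rfl fun i _ => by ring
  have split : ∀ f : Fin m → ℝ, ∑ p, f p = ∑ p ∈ Bl, f p + ∑ p ∈ univ \ Bl, f p := by
    intro f
    rw [← Finset.compl_eq_univ_sdiff, Finset.sum_add_sum_compl]
  -- pointwise
  have hBlp : ∀ p ∈ Bl, ((∑ i ∈ S p, w i) ^ 2 - ∑ i ∈ S p, w i ^ 2) -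
      (1 + z p - ∑ i ∈ S p, w i) ^ 2 + (z p + (∑ i ∈ S p, w i) / 2 - 2) ^ 2 +
        (3 * ∑ i ∈ S p, w i ^ 2 - ((∑ i ∈ S p, w i) ^ 2 - ∑ i ∈ S p, w i ^ 2)) / 4 =
      3 * ((((S p).card : ℝ) - 1) + (∑ i ∈ S p, w i - (S p).card) +
        ((2 - ((S p).card : ℝ)) * (1 - z p) + ∑ i ∈ S p, (1 - w i) * (1 - z p))) := by
    intro p _
    have e1 : ∑ i ∈ S p, (1 - w i) * (1 - z p) = (((S p).card : ℝ) - ∑ i ∈ S p, w i) * (1 - z p) := by
      rw [← Finset.sum_mul, Finset.sum_sub_distrib]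
      simp
    rw [e1]
    ring
  have hnBl : ∀ p ∈ univ \ Bl, ((∑ i ∈ S p, w i) ^ 2 - ∑ i ∈ S p, w i ^ 2) +
      (3 * (2 * ∏ i ∈ S p, w i) - ((∑ i ∈ S p, w i) ^ 2 - ∑ i ∈ S p, w i ^ 2)) / 4 =
      3 * ((((S p).card : ℝ) - 1) + (∑ i ∈ S p, w i - (S p).card) + ∏ i ∈ S p, (1 - w i)) := by
    intro p hp
    have hp2 : p ∉ Bl := (Finset.mem_sdiff.mp hp).2
    obtain ⟨a, b, hab, hS⟩ := Finset.card_eq_two.mp (hBl p hp2)
    have hc := hBl p hp2
    rw [hc, hS, Finset.prod_pair hab, Finset.prod_pair hab, Finset.sum_pair hab, Finset.sum_pair hab]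
    push_cast
    ring
  have s1 := Finset.sum_congr rfl hBlp
  have s2 := Finset.sum_congr rfl hnBl
  simp only [Finset.sum_add_distrib, Finset.sum_sub_distrib, ← Finset.mul_sum, ← Finset.sum_div] at s1 s2
  rw [sq_K hB h, hcurv]
  unfold cOneSq cTwo mass rest
  rw [hdeg, hadj]
  rw [split (fun p => ((∑ i ∈ S p, w i) ^ 2 - ∑ i ∈ S p, w i ^ 2)),
    split (fun p => (((S p).card : ℝ) - 1)), split (fun p => (∑ i ∈ S p, w i - (S p).card))]
  simp only [Finset.sum_add_distrib, Finset.sum_sub_distrib, ← Finset.mul_sum]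
  linear_combination s1 + s2


/-- the number of points of multiplicity at least five on the surface `i` -/
def big (S : Fin m → Finset (Fin k)) (i : Fin k) : ℕ :=
  (univ.filter fun p => i ∈ S p ∧ 5 ≤ (S p).card).card

end Pool.Agent.Helper94.BQ
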